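import Pool.Agent.Helper95.TW.Stmts

/-!
Polynomials in Hermitian matrices (towers, MP_7a8f48_an).
-/

open Finset Filter MeasureTheory Topology
open scoped ComplexConjugate InnerProductSpace Matrix

namespace Pool.Agent.Helper89.TF

variable {n : ℕ} {A : Matrix (Fin n) (Fin n) ℂ}

/-- matrices which are diagonal in the basis of eigenvectors of `A` -/
noncomputable def ph (hA : A.IsHermitian) : (Fin n → ℂ) →ₐ[ℂ] Matrix (Fin n) (Fin n) ℂ :=
  ((Unitary.conjStarAlgAut ℂ (Matrix (Fin n) (Fin n) ℂ) hA.eigenvectorUnitary).toAlgEquiv :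
    Matrix (Fin n) (Fin n) ℂ ≃ₐ[ℂ] Matrix (Fin n) (Fin n) ℂ).toAlgHom.comp
      (Matrix.diagonalAlgHom ℂ)

theorem ph_apply (hA : A.IsHermitian) (d : Fin n → ℂ) : ph hA d =
    Unitary.conjStarAlgAut ℂ (Matrix (Fin n) (Fin n) ℂ) hA.eigenvectorUnitary
      (Matrix.diagonal d) := rfl

theorem ph_eig (hA : A.IsHermitian) : ph hA (fun i => ((hA.eigenvalues i : ℝ) : ℂ)) = A :=
  hA.spectral_theorem.symm

theorem ph_star (hA : A.IsHermitian) (d : Fin n → ℂ) : (ph hA d)ᴴ = ph hA (star d) := by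
  rw [ph_apply, ph_apply, ← Matrix.star_eq_conjTranspose, ← map_star,
    Matrix.star_eq_conjTranspose, Matrix.diagonal_conjTranspose]

theorem ph_inj (hA : A.IsHermitian) {d d' : Fin n → ℂ} (h : ph hA d = ph hA d') : d = d' := by
  rw [ph_apply, ph_apply] at h
  exact Matrix.diagonal_injective
    ((Unitary.conjStarAlgAut ℂ (Matrix (Fin n) (Fin n) ℂ) hA.eigenvectorUnitary).injective h)

theorem aeval_pi (p : Polynomial ℂ) (d : Fin n → ℂ) :
    Polynomial.aeval d p = fun i => p.eval (d i) := by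
  funext i
  have h := Polynomial.aeval_algHom_apply (Pi.evalAlgHom ℂ (fun _ : Fin n => ℂ) i) d p
  have h1 : Polynomial.aeval (d i) p = p.eval (d i) := by
    rw [Polynomial.coe_aeval_eq_eval]
  rw [← h1]
  exact h.symm

theorem aeval_ph (hA : A.IsHermitian) (p : Polynomial ℂ) (d : Fin n → ℂ) :
    Polynomial.aeval (ph hA d) p = ph hA fun i => p.eval (d i) := by
  rw [Polynomial.aeval_algHom_apply, aeval_pi]

theorem aeval_eig (hA : A.IsHermitian) (p : Polynomial ℂ) :
    Polynomial.aeval A p = ph hA fun i => p.eval ((hA.eigenvalues i : ℝ) : ℂ) := by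
  conv_lhs => rw [← ph_eig hA]
  exact aeval_ph hA p _

/-- the polynomial of the eigenvalue `t` -/
noncomputable def lp (Λ : Finset ℝ) (t : ℝ) : Polynomial ℂ :=
  Lagrange.basis Λ (fun s : ℝ => (s : ℂ)) t

theorem inj_on (Λ : Finset ℝ) : Set.InjOn (fun s : ℝ => (s : ℂ)) Λ :=
  fun _ _ _ _ h => Complex.ofReal_injective h

theorem lp_eval {Λ : Finset ℝ} {s t : ℝ} (hs : s ∈ Λ) (ht : t ∈ Λ) :
    (lp Λ t).eval ((s : ℝ) : ℂ) = if s = t then 1 else 0 := by
  by_cases h : s = t
  · subst h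
    rw [if_pos rfl]
    exact Lagrange.eval_basis_self (inj_on Λ) hs
  · rw [if_neg h]
    exact Lagrange.eval_basis_of_ne (v := fun s : ℝ => (s : ℂ)) (fun h' => h h'.symm) hs

theorem spec_pt (hA : A.IsHermitian) (Λ : Finset ℝ) (h1 : ∀ i, hA.eigenvalues i ∈ Λ)
    (h2 : ∀ t ∈ Λ, ∃ i, hA.eigenvalues i = t) :
    (∀ t ∈ Λ, Polynomial.aeval A (lp Λ t) * Polynomial.aeval A (lp Λ t) =
        Polynomial.aeval A (lp Λ t) ∧
      (Polynomial.aeval A (lp Λ t))ᴴ = Polynomial.aeval A (lp Λ t) ∧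
      Polynomial.aeval A (lp Λ t) ≠ 0 ∧
      A * Polynomial.aeval A (lp Λ t) = (t : ℂ) • Polynomial.aeval A (lp Λ t)) ∧
    (∀ t ∈ Λ, ∀ t' ∈ Λ, t ≠ t' →
      Polynomial.aeval A (lp Λ t) * Polynomial.aeval A (lp Λ t') = 0) ∧
    ∑ t ∈ Λ, Polynomial.aeval A (lp Λ t) = 1 := by
  have he : ∀ t ∈ Λ, Polynomial.aeval A (lp Λ t) =
      ph hA fun i => if hA.eigenvalues i = t then 1 else 0 := by
    intro t ht
    rw [aeval_eig hA]
    congr 1
    funext i
    exact lp_eval (h1 i) ht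
  refine ⟨fun t ht => ⟨?_, ?_, ?_, ?_⟩, ?_, ?_⟩
  · rw [he t ht, ← map_mul]
    congr 1
    funext i
    show (if hA.eigenvalues i = t then (1 : ℂ) else 0) * (if hA.eigenvalues i = t then 1 else 0) = _
    split_ifs
    · exact one_mul 1
    · exact zero_mul 0
  · rw [he t ht, ph_star]
    congr 1
    funext i
    show star (if hA.eigenvalues i = t then (1 : ℂ) else 0) = _
    split_ifs
    · exact star_one ℂ
    · exact star_zero ℂ
  · rw [he t ht]
    obtain ⟨i, hi⟩ := h2 t ht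
    intro h
    have h3 := congrFun (ph_inj hA (h.trans (map_zero (ph hA)).symm)) i
    rw [if_pos hi] at h3
    exact one_ne_zero h3
  · rw [he t ht]
    have e : ((fun i => ((hA.eigenvalues i : ℝ) : ℂ)) * fun i =>
        if hA.eigenvalues i = t then (1 : ℂ) else 0 : Fin n → ℂ) =
        (t : ℂ) • fun i => if hA.eigenvalues i = t then (1 : ℂ) else 0 := by
      funext i
      show ((hA.eigenvalues i : ℝ) : ℂ) * (if hA.eigenvalues i = t then (1 : ℂ) else 0) =
        (t : ℂ) * (if hA.eigenvalues i = t then (1 : ℂ) else 0)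
      split_ifs with h
      · rw [h]
      · rw [mul_zero, mul_zero]
    have e2 := congrArg (ph hA) e
    rw [map_mul, map_smul, ph_eig hA] at e2
    exact e2
  · intro t ht t' ht' hne
    rw [he t ht, he t' ht', ← map_mul, ← map_zero (ph hA)]
    congr 1
    funext i
    show (if hA.eigenvalues i = t then (1 : ℂ) else 0) * (if hA.eigenvalues i = t' then 1 else 0) = 0
    by_cases h : hA.eigenvalues i = t
    · rw [if_neg (fun h' => hne (h.symm.trans h')), mul_zero]
    · rw [if_neg h, zero_mul]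
  · rw [Finset.sum_congr rfl he, ← map_sum, ← map_one (ph hA)]
    congr 1
    funext i
    rw [Finset.sum_apply, Finset.sum_ite_eq, if_pos (h1 i)]
    rfl

end Pool.Agent.Helper89.TF
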