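import Pool.Agent.Helper89.TF.Lin

/-!
Row SPC: constant spectrum (towers, MP_7a8f48_an).
-/

open Finset Filter MeasureTheory Topology
open scoped ComplexConjugate InnerProductSpace Matrix

namespace Pool.Agent.Helper89.TF

theorem det_aesm {Ω : Type} [MeasurableSpace Ω] {μ : Measure Ω} {n : ℕ}
    {G : Ω → Matrix (Fin n) (Fin n) ℂ} (h : ∀ i j, AEStronglyMeasurable (fun x => G x i j) μ) :
    AEStronglyMeasurable (fun x => (G x).det) μ := by
  have e : (fun x => (G x).det) = fun x => ∑ s : Equiv.Perm (Fin n),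
      (((Equiv.Perm.sign s : ℤ) : ℂ)) * ∏ i, G x (s i) i := by
    funext x
    exact Matrix.det_apply' _
  rw [e]
  refine Finset.aestronglyMeasurable_fun_sum _ fun s _ => ?_
  exact (Finset.aestronglyMeasurable_fun_prod _ fun i _ => h (s i) i).const_mul _

theorem charpoly_conj {n : ℕ} {σ G : Matrix (Fin n) (Fin n) ℂ} (h : σᴴ * σ = 1) :
    (σ * G * σᴴ).charpoly = G.charpoly := by
  rw [Matrix.charpoly_mul_comm, ← Matrix.mul_assoc, h, Matrix.one_mul]

theorem charpoly_const {Ω : Type} [MeasurableSpace Ω] {μ : Measure Ω} [IsProbabilityMeasure μ]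
    {T : Ω ≃ᵐ Ω} {n : ℕ} {σ G : Ω → Matrix (Fin n) (Fin n) ℂ} (hT : Ergodic T μ)
    (hm : ∀ i j, AEStronglyMeasurable (fun x => G x i j) μ)
    (hu : ∀ᵐ x ∂μ, σ x * (σ x)ᴴ = 1 ∧ (σ x)ᴴ * σ x = 1)
    (ht : ∀ᵐ x ∂μ, G (T x) = σ x * G x * (σ x)ᴴ) :
    ∃ P : Polynomial ℂ, ∀ᵐ x ∂μ, (G x).charpoly = P := by
  have h1 : ∀ k : ℕ, ∃ c : ℂ, ∀ᵐ x ∂μ, (G x).charpoly.eval (k : ℂ) = c := by
    intro k
    have hmk : AEStronglyMeasurable (fun x => (G x).charpoly.eval (k : ℂ)) μ := by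
      have e : (fun x => (G x).charpoly.eval (k : ℂ)) =
          fun x => (Matrix.scalar (Fin n) (k : ℂ) - G x).det := by
        funext x
        exact Matrix.eval_charpoly _ _
      rw [e]
      refine det_aesm fun i j => ?_
      show AEStronglyMeasurable (fun x => Matrix.scalar (Fin n) (k : ℂ) i j - G x i j) μ
      exact aestronglyMeasurable_const.sub (hm i j)
    obtain ⟨c, hc⟩ := hT.ae_eq_const_of_ae_eq_comp_ae hmk (by
      filter_upwards [hu, ht] with x h2 h3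
      show (G (T x)).charpoly.eval (k : ℂ) = (G x).charpoly.eval (k : ℂ)
      rw [h3, charpoly_conj h2.2])
    exact ⟨c, hc⟩
  choose c hc using h1
  have h2 : ∀ᵐ x ∂μ, ∀ k : ℕ, (G x).charpoly.eval (k : ℂ) = c k := ae_all_iff.2 hc
  obtain ⟨x0, hx0⟩ := h2.exists
  refine ⟨(G x0).charpoly, ?_⟩
  filter_upwards [h2] with x hx
  refine Polynomial.eq_of_infinite_eval_eq _ _ ?_
  refine Set.Infinite.mono ?_ (Set.infinite_range_of_injective
    (Nat.cast_injective : Function.Injective (fun k : ℕ => (k : ℂ))))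
  rintro _ ⟨k, rfl⟩
  exact (hx k).trans (hx0 k).symm

theorem st_SPC : Helper95.TW.ST_SPC := by
  intro Ω _ μ _ T n σ G hT hm hu hH ht
  obtain ⟨P, hP⟩ := charpoly_const hT hm hu ht
  obtain ⟨x0, hx0, hx0'⟩ := (hP.and hH).exists
  have hA0 : (G x0).IsHermitian := hx0'
  refine ⟨univ.image hA0.eigenvalues, lp (univ.image hA0.eigenvalues), ?_⟩
  filter_upwards [hP, hH] with x h1 h2
  have hA : (G x).IsHermitian := h2
  have h3 : hA.eigenvalues = hA0.eigenvalues :=
    (Matrix.IsHermitian.eigenvalues_eq_eigenvalues_iff hA hA0).2 (h1.trans hx0.symm)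
  refine spec_pt hA _ (fun i => ?_) (fun t ht' => ?_)
  · rw [h3]
    exact mem_image_of_mem _ (mem_univ _)
  · obtain ⟨i, _, hi⟩ := mem_image.1 ht'
    exact ⟨i, by rw [h3]; exact hi⟩

end Pool.Agent.Helper89.TF
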